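import Mathlib

namespace Pool.Agent.Results.MP_5f25aa_nt.No

inductive Ex : Type
  | two : Ex
  | add : Ex → Ex → Ex
  | mul : Ex → Ex → Ex

def Ex.val : Ex → ℕ
  | .two => 2
  | .add a b => a.val + b.val
  | .mul a b => a.val * b.val

def Ex.cnt : Ex → ℕ
  | .two => 1
  | .add a b => a.cnt + b.cnt
  | .mul a b => a.cnt + b.cnt

def IsCx (n k : ℕ) : Prop := IsLeast {j | ∃ e : Ex, e.val = n ∧ e.cnt = j} k

theorem ten (m : ℕ) : ∃ e : Ex, e.val = 2 ^ m * (2 ^ 3 + 2) ^ 10 ∧ e.cnt = m + 39 := by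
  induction m with
  | zero =>
    exact ⟨(.mul .two (.mul .two (.mul .two (.mul .two (.mul .two (.mul .two (.mul .two (.mul .two
    (.mul .two (.add .two (.mul .two (.mul (.add .two (.mul .two .two)) (.mul (.add .two (.mul
    .two (.mul .two (.mul .two (.add .two (.mul .two (.mul .two (.mul .two (.mul .two (.mul
    .two (.mul .two .two))))))))))) (.add .two (.mul .two (.mul (.add .two (.mul .two .two))
    (.add .two (.mul .two (.mul .two (.mul .two (.mul .two (.mul .two (.mul .two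
    .two))))))))))))))))))))))), by decide +kernel, by decide +kernel⟩
  | succ m ih =>
    obtain ⟨e, h1, h2⟩ := ih
    refine ⟨.mul .two e, ?_, ?_⟩
    · rw [Ex.val, h1, Ex.val]; ring
    · rw [Ex.cnt, h2, Ex.cnt]; ring

theorem result :
    (¬ ∀ m u r : ℕ, 2 ≤ u → 1 ≤ r → IsCx (2 ^ m * (2 ^ u + 2) ^ r) (m + (u + 1) * r)) ∧
    ∀ m : ℕ, ∃ e : Ex, e.val = 2 ^ m * (2 ^ 3 + 2) ^ 10 ∧ e.cnt < m + (3 + 1) * 10 := by
  refine ⟨fun h => ?_, fun m => ?_⟩
  · have := (h 0 3 10 (by omega) (by omega)).2 (ten 0)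
    omega
  · obtain ⟨e, h1, h2⟩ := ten m
    exact ⟨e, h1, by omega⟩

end Pool.Agent.Results.MP_5f25aa_nt.No
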